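import Mathlib
import Pool.Agent.V8H64.X49.Law
import Pool.Agent.V8H64.X49.Weak

/-!
# The quadratic twists of every `E_D`, a twist of `X_0(49)`, by primes: the law for a fixed `D`

`E_D` is the quadratic twist by `D` of `X_0(49) : y² = x³ - 35 x - 98`, that is
`y² = x³ - 35 D² x - 98 D³`. Let `D` be ANY squarefree number with all prime factors `≡ 1 mod 4` (inert or
split in `ℚ(√-7)`, in any number, no condition on the rank, `Ш` or the `L`-function of `E_D`), let `k` be the
number of the prime factors which split in `ℚ(√-7)`, and let `ℓ` run through the primes `≡ 1 mod 4` that do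
not divide `D`; so `E_{Dℓ}` is the quadratic twist of `E_D` by `ℓ`.

* For every such `ℓ`: `E_{Dℓ}(ℚ)` is finite and `Ш(E_{Dℓ}/ℚ)[2^∞] = 0` if and only if the corank of a
  matrix over `𝔽₂`, made of the quadratic symbols between the prime factors of `D ℓ` and of the quartic
  symbols of `-7`, is zero; in this case `L(E_{Dℓ}, s)` is entire, `L(E_{Dℓ}, 1) ≠ 0`, and the weak
  conjecture holds. If the corank is `r` and `E_{Dℓ}(ℚ)` is finite, `Ш(E_{Dℓ}/ℚ)[2]` has at least `2 ^ r`
  elements.
* THE LAW FOR A FIXED `D`: for every `r` the set of the `ℓ` with corank `r` has a natural density in the set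
  of all primes, which is `c_r / 2 ^ (k + 3)` with integers `c_r ≥ 0`, `c_0 + ⋯ + c_{k+1} = 2 ^ (k + 2)`, and
  `c_0` is ODD and at least `3`. So every curve `E_D` has a positive proportion of good prime twists: at least
  `3 / 2 ^ (k + 2)` of the primes `≡ 1 mod 4`.

The criterion is that of the starting files (`MP_4a9ea6_nt/TwoPartTwistsX49`). New: a prime `ℓ` inert in
`ℚ(√-7)` adds its symbols to the diagonal of the matrix of `D`, a split one also borders it; the number of the
nonsingular diagonals and that of the nonsingular borderings of any matrix are odd; the symbols of `ℓ`,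
with the quartic symbol of `-7`, are equidistributed (Chebotarev; a commutator moves `√√-7` and fixes all the
square roots).
-/

set_option autoImplicit false

open WeierstrassCurve Filter

namespace Pool.Agent.Results.MP_8b7eba_nt.PrimeTwistsX49

open Pool.Agent.TH841.NF.D (Sha)
open Pool.Agent.Results.MP_4a9ea6_nt.TwoPartTwistsX49 (E split mat)

/-- `D` is squarefree and all its prime factors are `≡ 1 mod 4`. -/
def Family (D : ℕ) : Prop := Squarefree D ∧ ∀ p ∈ D.primeFactors, p % 4 = 1

/-- the primes `≡ 1 mod 4` that do not divide `D` -/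
def New (D l : ℕ) : Prop := l.Prime ∧ l % 4 = 1 ∧ ¬ l ∣ D

/-- the corank of the matrix of the symbols; its rows and columns are indexed by the set `split D` of the
prime factors of `D` which split in `ℚ(√-7)` -/
noncomputable def corank (D : ℕ) : ℕ := (split D).card - (mat D).rank

/-- `E_D(ℚ)` is finite and `Ш(E_D/ℚ)[2^∞] = 0`; `E D` is the minimal equation
`y² + x y = x³ - (3 D + 1) / 4 x² - 2 D² x - D³` of `E_D` -/
def Good (D : ℕ) : Prop :=
  Finite (E D).toAffine.Point ∧ ∀ (n : ℕ) (x : Sha (E D)), 2 ^ n • x = 0 → x = 0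

/-- The weak conjecture for `E_D : y² = x³ + A x + B`, `A = - 35 D²`, `B = - 98 D³`, with both sides false:
the Euler product over the primes `p ∤ 2 (4 A³ + 27 B²)` extends to an entire function `f` with `f 1 ≠ 0`,
and there are finitely many rational points. -/
def WeakHolds (D : ℕ) : Prop :=
  ∃ A B : ℤ, A = -35 * (D : ℤ) ^ 2 ∧ B = -98 * (D : ℤ) ^ 3 ∧ 4 * A ^ 3 + 27 * B ^ 2 ≠ 0 ∧
    (∃ f : ℂ → ℂ, Differentiable ℂ f ∧
      (∀ s : ℂ, (3 : ℝ) / 2 < s.re →
        HasProd
          (fun p : {p : ℕ // p.Prime ∧ ¬ ((p : ℤ) ∣ 2 * (4 * A ^ 3 + 27 * B ^ 2))} =>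
            ((1 : ℂ)
              - ((((p.1 : ℤ) - (Nat.card {q : ZMod p.1 × ZMod p.1 //
                    q.2 ^ 2 = q.1 ^ 3 + (A : ZMod p.1) * q.1 + (B : ZMod p.1)} : ℤ)) : ℤ) : ℂ)
                  * ((p.1 : ℂ) ^ (-s))
              + (p.1 : ℂ) ^ (1 - 2 * s))⁻¹)
          (f s)) ∧ f 1 ≠ 0) ∧
    {q : ℚ × ℚ | q.2 ^ 2 = q.1 ^ 3 + (A : ℚ) * q.1 + (B : ℚ)}.Finite

/-- the primes with the property `G` have the natural density `δ` in the set of all primes -/
def HasDensity (G : ℕ → Prop) (δ : ℝ) : Prop :=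
  Tendsto (fun X : ℕ => ({l : ℕ | l ≤ X ∧ l.Prime ∧ G l}.ncard : ℝ) / (Nat.primeCounting X : ℝ))
    atTop (nhds δ)

section proof

open Pool.Agent.V8H64.X49
open Pool.Agent.Results.MP_4a9ea6_nt.TwoPartTwistsX49 (core two_iff)

theorem corank_eq (D : ℕ) : corank D = cork (mat D) := by
  unfold corank cork
  rw [Fintype.card_coe]

theorem good_iff {D : ℕ} (hD : Family D) : Good D ↔ corank D = 0 := by
  rw [corank_eq, cork_zero]
  obtain ⟨-, -, -, h4, h5, -⟩ := core hD
  constructor
  · rintro ⟨h1, h2⟩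
    exact h4.1 ⟨h1, fun x hx => h2 1 x (by rw [pow_one, two_nsmul]; exact hx)⟩
  · intro h
    exact ⟨(h4.2 h).1, h5 h⟩

theorem weak_holds {D : ℕ} (hD : Family D) (h : corank D = 0) : WeakHolds D := by
  rw [corank_eq, cork_zero] at h
  exact ⟨_, _, rfl, rfl, weak_of hD h⟩

theorem sha_ge {D : ℕ} (hD : Family D) (hf : Finite (E D).toAffine.Point) :
    2 ^ corank D ≤ {x : Sha (E D) | x + x = 0}.encard :=
  (core hD).2.2.2.2.2.1 hf

theorem dens_new {D : ℕ} (hD : Family D) : HasDensity (New D) (1 / 2) := by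
  have h := dens_ev (pr_pf hD) (fun _ => True) (fun _ => True)
  have hc : ∀ R : Finset ℕ, Nat.card (R → ZMod 2) = 2 ^ R.card := by
    intro R
    rw [Nat.card_fun]
    simp
  have h1 : Nat.card {v : D.primeFactors → ZMod 2 // True} = 2 ^ D.primeFactors.card := by
    rw [Nat.card_congr (Equiv.subtypeUnivEquiv fun _ => trivial), hc]
  have h2 : Nat.card {v : (D.primeFactors → ZMod 2) × ZMod 2 // True} =
      2 ^ (D.primeFactors.card + 1) := by
    rw [Nat.card_congr (Equiv.subtypeUnivEquiv fun _ => trivial), Nat.card_prod, hc,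
      Nat.card_zmod, pow_succ]
  have e : ((Nat.card {v : D.primeFactors → ZMod 2 // True} : ℝ) / 2 ^ (D.primeFactors.card + 2) +
      (Nat.card {v : (D.primeFactors → ZMod 2) × ZMod 2 // True} : ℝ) /
        2 ^ (D.primeFactors.card + 3)) = 1 / 2 := by
    rw [h1, h2]
    push_cast
    rw [pow_add (2 : ℝ) D.primeFactors.card 2, pow_add (2 : ℝ) D.primeFactors.card 3,
      pow_add (2 : ℝ) D.primeFactors.card 1]
    have h3 : (2 : ℝ) ^ D.primeFactors.card ≠ 0 := by positivity
    field_simp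
    norm_num
  rw [e] at h
  refine h.congr fun l hl => ?_
  unfold Ev New
  rw [not_mem_iff hD.1.ne_zero hl]
  exact ⟨fun h => ⟨hl, h.1, h.2.1⟩, fun h => ⟨h.2.1, h.2.2, fun _ => trivial, fun _ => trivial⟩⟩

end proof

/-- **The prime twists of every member of the family.** -/
theorem result :
    (∀ D l : ℕ, Family D → New D l → Family (D * l) ∧ (Good (D * l) ↔ corank (D * l) = 0) ∧
      (corank (D * l) = 0 → WeakHolds (D * l)) ∧
      (Finite (E (D * l)).toAffine.Point →
        2 ^ corank (D * l) ≤ {x : Sha (E (D * l)) | x + x = 0}.encard)) ∧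
    (∀ D : ℕ, Family D → ∃ c : ℕ → ℕ, Odd (c 0) ∧ 3 ≤ c 0 ∧
      ∑ r ∈ Finset.range ((split D).card + 2), c r = 2 ^ ((split D).card + 2) ∧
      HasDensity (New D) (1 / 2) ∧
      (∀ r : ℕ, HasDensity (fun l => New D l ∧ corank (D * l) = r)
        ((c r : ℝ) / 2 ^ ((split D).card + 3))) ∧
      HasDensity (fun l => New D l ∧ Good (D * l) ∧ WeakHolds (D * l))
        ((c 0 : ℝ) / 2 ^ ((split D).card + 3))) := by
  refine ⟨fun D l hD hl => ?_, fun D hD => ?_⟩
  · have h := Pool.Agent.V8H64.X49.adm_mul hD hl.1 hl.2.1 hl.2.2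
    exact ⟨h, good_iff h, weak_holds h, sha_ge h⟩
  · have hlaw : ∀ r : ℕ, HasDensity (fun l => New D l ∧ corank (D * l) = r)
        ((Pool.Agent.V8H64.X49.cc D r : ℝ) / 2 ^ ((split D).card + 3)) := fun r => by
      refine (Pool.Agent.V8H64.X49.law hD r).congr fun l _ => ?_
      rw [corank_eq]
      exact Iff.rfl
    refine ⟨Pool.Agent.V8H64.X49.cc D, Pool.Agent.V8H64.X49.cc_odd D,
      Pool.Agent.V8H64.X49.cc_three D, Pool.Agent.V8H64.X49.cc_sum D, dens_new hD, hlaw, ?_⟩
    refine Pool.Agent.V8H64.X49.HasDensity.congr (hlaw 0) fun l _ => ?_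
    refine and_congr_right fun hl => ?_
    have h := Pool.Agent.V8H64.X49.adm_mul hD hl.1 hl.2.1 hl.2.2
    exact ⟨fun h0 => ⟨(good_iff h).2 h0, weak_holds h h0⟩, fun h0 => (good_iff h).1 h0.1⟩

end Pool.Agent.Results.MP_8b7eba_nt.PrimeTwistsX49
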