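import Mathlib
import Pool.Agent.V8H64.JT.Fin
import Pool.Agent.Results.MP_8b7eba_nt.PrimeTwistsX49

/-!
# The same prime twists of curves with complex multiplication by `ℚ(√-7)` and by `ℚ(√-3)`

First family: `E_D`, the quadratic twist by `D` of `X_0(49)`, `D` squarefree with all prime factors
`≡ 1 mod 4`. Second family: `C_N : y² = x³ - 432 N²`, that is `x³ + y³ = N`, and `E_N : y² + N y = x³`, which
is `3`-isogenous to `C_N`; `N` cube-free, prime to `3`. A prime `ℓ` twists members of both families: `E_{Dℓ}` is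
the quadratic twist of `E_D` by `ℓ`, `C_{Nℓ}` the cubic twist of `C_N` by `ℓ`.

* INDEPENDENCE. Let `D_0, …, D_m` be any members of the first family, and `D'_0, …, D'_s` any members of
  the second, all with no prime factor `2` modulo `3` or all with exactly one. The primes `ℓ ≡ 1 mod 4`,
  prime to all `D_j`, with given `2`-descent coranks `r_0, …, r_m` of the `E_{D_j ℓ}` have a natural density
  `a / 2^k`; the primes `ℓ`, admissible for all `D'_j`, with given orders `3 ^ (2 r'_j + 1)` of the Selmer
  groups of `√-3` on the `E_{D'_j ℓ}` have a natural density `b / (2 · 3^n)`; the primes with both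
  properties have a natural density, which is the PRODUCT of these two numbers.
* So for every `D` of the first family and every `D'` of the second the primes `ℓ` for which both curves
  are good, `L(E_{Dℓ}, 1) ≠ 0` and `L(C_{D'ℓ}, 1) ≠ 0`, with finitely many points and with `Ш[2^∞] = 0`,
  `Ш[3^∞] = 0`, have a natural density, at least `(2/3) ^ w / 2 ^ (k + 3)`: here `w` is the number of the
  prime factors of `D'` and `k` that of the prime factors of `D` split in `ℚ(√-7)`.
* For every `D` of the first and every two `D'`, `D''` of the second family the primes `ℓ` for which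
  all three curves `E_{Dℓ}`, `C_{D'ℓ}`, `C_{D''ℓ}` are good have a positive natural density.

New: the two events are Frobenian in a common field. For the first one the automorphisms with trivial
symbols contain all the fourth powers, for the second one all the cubes of the automorphisms that fix `√-3`;
and some automorphism with trivial symbols for the first family moves `√-3` (a Frobenius element at a
suitable prime, changed by a commutator). So every coset for the first family meets every coset for the
second in the same number of elements.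
-/

set_option autoImplicit false

open scoped Classical

namespace Pool.Agent.Results.MP_8b7eba_nt.IndependentPrimeTwists

open Pool.Agent.Results.MP_8b7eba_nt.PrimeTwistsX49 (Family New corank HasDensity)
open Pool.Agent.Results.MP_4a9ea6_nt.TwoPartTwistsX49 (split)
open Pool.Agent.V8H26.PT.Tr (Base Admissible Sel)

/-- the event for the twists of `X_0(49)`: `ℓ` is a new prime for all the `D_j` and the corank of
`D_j ℓ` is `r_j` -/
def First {m : ℕ} (D r : Fin (m + 1) → ℕ) (l : ℕ) : Prop := ∀ j, New (D j) l ∧ corank (D j * l) = r j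

/-- the event for the cubic twists: `ℓ` is admissible for all the `D_j` and the Selmer group of `√-3` on
`E_{D_j ℓ}` has order `3 ^ (2 r_j + 1)` -/
def Second (K : Type) [Field K] [NumberField K] {s : ℕ} (D r : Fin (s + 1) → ℕ) (l : ℕ) : Prop :=
  ∀ j, Admissible (D j) l ∧ (Sel K (D j * l)).ncard = 3 ^ (2 * r j + 1)

/-- `ℓ` is new for `D`, `E_{Dℓ}(ℚ)` is finite, `Ш(E_{Dℓ}/ℚ)[2^∞] = 0`, `L(E_{Dℓ}, s)` is entire and does
not vanish at `1` -/
def GoodFirst (D l : ℕ) : Prop := New D l ∧ PrimeTwistsX49.Good (D * l) ∧ PrimeTwistsX49.WeakHolds (D * l)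

/-- `ℓ` is admissible for `D`, `C_{Dℓ}(ℚ)` is finite, `Ш(E_{Dℓ}/ℚ)[3^∞] = 0`, `L(C_{Dℓ}, s)` is entire and
does not vanish at `1` -/
def GoodSecond (D l : ℕ) : Prop :=
  Admissible D l ∧ Pool.Agent.V8H26.PT.Tr.Good (D * l) ∧ Pool.Agent.V8H26.PT.Tr.WeakHolds (D * l)

section proof

open Pool.Agent.V8H64.JT

theorem good_first {D : ℕ} (hD : Family D) (l : ℕ) : (New D l ∧ Pool.Agent.V8H64.X49.cork
    (Pool.Agent.Results.MP_4a9ea6_nt.TwoPartTwistsX49.mat (D * l)) = 0) ↔ GoodFirst D l := by
  unfold GoodFirst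
  refine and_congr_right fun hl => ?_
  have h := Pool.Agent.V8H64.X49.adm_mul hD hl.1 hl.2.1 hl.2.2
  rw [← PrimeTwistsX49.corank_eq]
  exact ⟨fun h0 => ⟨(PrimeTwistsX49.good_iff h).2 h0, PrimeTwistsX49.weak_holds h h0⟩,
    fun h0 => (PrimeTwistsX49.good_iff h).1 h0.1⟩

end proof

/-- **Independence of the prime twists with complex multiplication by two fields.** -/
theorem result (K : Type) [Field K] [NumberField K] [IsCyclotomicExtension {3} ℚ K] :
    (∀ (m s i : ℕ) (D r : Fin (m + 1) → ℕ) (D' r' : Fin (s + 1) → ℕ), (∀ j, Family (D j)) → i ≤ 1 →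
      (∀ j, Base i (D' j)) → ∃ a k b n : ℕ,
      HasDensity (First D r) ((a : ℝ) / 2 ^ k) ∧
      HasDensity (Second K D' r') ((b : ℝ) / (2 * 3 ^ n)) ∧
      HasDensity (fun l => First D r l ∧ Second K D' r' l)
        ((a : ℝ) / 2 ^ k * ((b : ℝ) / (2 * 3 ^ n)))) ∧
    (∀ i D D' : ℕ, Family D → i ≤ 1 → Base i D' → ∃ δ : ℝ,
      (2 / 3 : ℝ) ^ D'.primeFactors.card / 2 ^ ((split D).card + 3) ≤ δ ∧
      HasDensity (fun l => GoodFirst D l ∧ GoodSecond D' l) δ) ∧
    (∀ i D D' D'' : ℕ, Family D → i ≤ 1 → Base i D' → Base i D'' → ∃ δ : ℝ, 0 < δ ∧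
      HasDensity (fun l => GoodFirst D l ∧ GoodSecond D' l ∧ GoodSecond D'' l) δ) := by
  obtain ⟨⟨j, -⟩, -⟩ := Pool.Agent.Y455.CTK.jex K
  refine ⟨?_, ?_, ?_⟩
  · intro m s i D r D' r' hD hi hD'
    obtain ⟨α, β, h1, h2, h3, ⟨a, k, rfl⟩, ⟨b, n, rfl⟩⟩ :=
      Pool.Agent.V8H64.JT.main K j D r D' r' hD hi hD'
    have e : ∀ l : ℕ, Pool.Agent.V8H64.JT.F1 D r l ↔ First D r l := fun l => by
      refine forall_congr' fun t => ?_
      rw [PrimeTwistsX49.corank_eq]
      exact Iff.rfl
    exact ⟨a, k, b, n, h1.congr fun l _ => e l, h2,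
      h3.congr fun l _ => and_congr_left fun _ => e l⟩
  · intro i D D' hD hi hD'
    obtain ⟨δ, h1, h2⟩ := Pool.Agent.V8H64.JT.two_curves K j hD hi hD'
    exact ⟨δ, h1, h2.congr fun l _ => and_congr (good_first hD l)
      (and_congr_right fun h => (Pool.Agent.V8H26.PT.Tr.good_rk K j hi hD' h).symm)⟩
  · intro i D D' D'' hD hi hD' hD''
    obtain ⟨δ, h1, h2⟩ := Pool.Agent.V8H64.JT.three_curves K j hD hi hD' hD''
    exact ⟨δ, h1, h2.congr fun l _ => and_congr (good_first hD l) (and_congr
      (and_congr_right fun h => (Pool.Agent.V8H26.PT.Tr.good_rk K j hi hD' h).symm)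
      (and_congr_right fun h => (Pool.Agent.V8H26.PT.Tr.good_rk K j hi hD'' h).symm))⟩

end Pool.Agent.Results.MP_8b7eba_nt.IndependentPrimeTwists
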