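import Mathlib
import Pool.Agent.V8H26.PT.Tr

/-!
# The prime twists of every curve `x³ + y³ = D`: Selmer groups, ranks and the weak conjecture

`E_N : y² + N y = x³` over `ℚ` is `3`-isogenous to `C_N : y² = x³ - 432 N²`, that is `x³ + y³ = N`, and has
the same rank and `L`-function; `E_{D ℓ}` is the cubic twist of `E_D` by `ℓ`. Let `D` be ANY cube-free
number prime to `3` with at most one prime factor `2` modulo `3` (and any number of prime factors `1` modulo
`3`), let `ω` be the number of its prime factors, and let `ℓ` run through the ADMISSIBLE primes: `ℓ ∤ 3 D`,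
`D ℓ` has exactly one prime factor `2` modulo `3` and is not `±1` modulo `9`.

* For every such `ℓ` the Selmer group of the endomorphism `√-3` of `E_{D ℓ}` over `ℚ(√-3)` has order
  `3 ^ (2 r + 1)` for some `r`, the rank of `E_{D ℓ}(ℚ)` is at most `2 r`, and `r = 0` if and only if
  `E_{D ℓ}(ℚ)` is finite and `Ш(E_{D ℓ}/ℚ)[3^∞] = 0`; in this case `L(C_{D ℓ}, s)` is entire,
  `L(C_{D ℓ}, 1) ≠ 0` and `C_{D ℓ}(ℚ)` is finite, so the weak conjecture holds.
* THE LAW FOR A FIXED `D`: for every `r` the set of the admissible `ℓ` with Selmer group of order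
  `3 ^ (2 r + 1)` has a natural density in the set of all primes, which is `1/3 · c_r / 3^n` with integers
  `c_r ≥ 0`, `c_0 + c_1 + ⋯ + c_ω = 3^n`; and `c_0 / 3^n ≥ (2/3)^ω`. So EVERY curve has a positive proportion
  of good prime twists: at least `(2/3)^ω` of the admissible primes (which have density `1/3`).
-/

set_option autoImplicit false

open scoped Classical

namespace Pool.Agent.Results.MP_8b7eba_nt.PrimeTwistsOfEveryTwist

open Pool.Agent.V8H26.PT.Tr

open Q283.Q3B Q283.Q3N Q283.TQ Pool.Agent.V8H26.PT in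
theorem result (K : Type) [Field K] [NumberField K] [IsCyclotomicExtension {3} ℚ K] :
    (∀ i D l : ℕ, i ≤ 1 → Base i D → Admissible D l →
      ∃ r : ℕ, (Sel K (D * l)).ncard = 3 ^ (2 * r + 1) ∧ rank (D * l) ≤ 2 * r ∧
        (r = 0 ↔ Good (D * l)) ∧ (r = 0 → WeakHolds (D * l))) ∧
    (∀ i D : ℕ, i ≤ 1 → Base i D → ∃ (n : ℕ) (c : ℕ → ℕ),
      ∑ r ∈ Finset.range (D.primeFactors.card + 1), c r = 3 ^ n ∧
      (2 / 3 : ℝ) ^ D.primeFactors.card ≤ (c 0 : ℝ) / 3 ^ n ∧
      HasDensity (Admissible D) (1 / 3) ∧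
      ∀ r : ℕ, HasDensity (fun l => Admissible D l ∧ (Sel K (D * l)).ncard = 3 ^ (2 * r + 1))
        (1 / 3 * ((c r : ℝ) / 3 ^ n))) := by
  obtain ⟨⟨j, -⟩, -⟩ := Pool.Agent.Y455.CTK.jex K
  refine ⟨?_, ?_⟩
  · intro i D l hi hD h
    have hC := cls_adm hi hD h
    obtain ⟨h1, h2, h3⟩ := sel_N K j hC
    exact ⟨_, h1, h2, h3.trans (good_iff _).symm, fun h => weak hC (h3.1 h)⟩
  · intro i D hi hD
    -- the total density, from the laws
    have total : ∀ (n : ℕ) (c : ℕ → ℕ), ∑ r ∈ Finset.range (D.primeFactors.card + 1), c r = 3 ^ n →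
        (∀ r : ℕ, HasDensity (fun l => Admissible D l ∧ (Sel K (D * l)).ncard = 3 ^ (2 * r + 1))
          (1 / 3 * ((c r : ℝ) / 3 ^ n))) →
        (∀ l, Admissible D l → ∃ r ∈ Finset.range (D.primeFactors.card + 1),
          (Sel K (D * l)).ncard = 3 ^ (2 * r + 1)) → HasDensity (Admissible D) (1 / 3) := by
      intro n c hc hd hr
      have e1 : ∑ r ∈ Finset.range (D.primeFactors.card + 1), (1 / 3 * ((c r : ℝ) / 3 ^ n)) =
          1 / 3 := by
        rw [← Finset.mul_sum, ← Finset.sum_div]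
        have : (∑ r ∈ Finset.range (D.primeFactors.card + 1), (c r : ℝ)) = 3 ^ n := by
          exact_mod_cast hc
        rw [this, div_self (by positivity), mul_one]
      rw [← e1]
      refine sum_density (fun l h => ?_) (fun r l h => h.1)
        (fun r r' l h h' => pow_inj (h.2.symm.trans h'.2)) hd
      obtain ⟨r, h1, h2⟩ := hr l h
      exact ⟨r, h1, h, h2⟩
    rcases Nat.le_one_iff_eq_zero_or_eq_one.1 hi with rfl | rfl
    · have hS := base_zero.1 hD
      have hlaw : ∀ r : ℕ, HasDensity (fun l => Admissible D l ∧ (Sel K (D * l)).ncard = 3 ^ (2 * r + 1))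
          (1 / 3 * ((cS D r : ℝ) / 3 ^ D.primeFactors.card)) := fun r =>
        hasDensity_congr (fun l hl => by
          rw [← adm_zero hD]
          exact and_congr_right fun h => (sel_iff K j hi hD h r).symm) (law2 hS r)
      have hb : ∀ l, Admissible D l → ∃ r ∈ Finset.range (D.primeFactors.card + 1),
          (Sel K (D * l)).ncard = 3 ^ (2 * r + 1) := by
        intro l h
        obtain ⟨hl, h1, h3, h4⟩ := (adm_zero hD).1 h
        refine ⟨crk2 D (fun p => Pool.Agent.Y703.CX.lam p l), ?_, ?_⟩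
        · rw [Finset.mem_range, Nat.lt_succ_iff]
          exact crk2_le D _
        · rw [sel_iff K j hi hD h, rk_mul2 hS hl h1, add_comm]
      refine ⟨D.primeFactors.card, cS D, cS_sum D, ?_, total _ _ (cS_sum D) hlaw hb, hlaw⟩
      rw [div_pow]
      refine div_le_div_of_nonneg_right ?_ (by positivity)
      exact_mod_cast cS_zero D
    · have hB := base_one.1 hD
      have hlaw : ∀ r : ℕ, HasDensity (fun l => Admissible D l ∧ (Sel K (D * l)).ncard = 3 ^ (2 * r + 1))
          (1 / 3 * ((cD D r : ℝ) / 3 ^ (2 * kD D + 1))) := fun r =>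
        hasDensity_congr (fun l hl => by
          rw [← adm_one hD]
          exact and_congr_right fun h => (sel_iff K j hi hD h r).symm) (law1 hB r)
      have hb : ∀ l, Admissible D l → ∃ r ∈ Finset.range (D.primeFactors.card + 1),
          (Sel K (D * l)).ncard = 3 ^ (2 * r + 1) := by
        intro l h
        obtain ⟨hl, h1, h2, h3, h4⟩ := (adm_one hD).1 h
        refine ⟨crk D (fun p => Pool.Agent.Y703.CX.lam p l) (fun r => Pool.Agent.Y703.CX.lam l r), ?_, ?_⟩
        · rw [Finset.mem_range, Nat.lt_succ_iff]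
          exact crk_le D _ _
        · rw [sel_iff K j hi hD h, rk_mul hB hl h1 h2, add_comm]
      have hsum : ∑ r ∈ Finset.range (D.primeFactors.card + 1), cD D r = 3 ^ (2 * kD D + 1) := by
        rw [card_pf hB]
        exact cD_sum hB
      refine ⟨2 * kD D + 1, cD D, hsum, ?_, total _ _ hsum hlaw hb, hlaw⟩
      have h1 := cD_zero hB
      rw [card_pf hB, div_pow, div_le_div_iff₀ (by positivity) (by positivity)]
      have h2 : (2 : ℝ) ^ (kD D + 1) * 3 ^ kD D ≤ (cD D 0 : ℝ) := by exact_mod_cast h1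
      calc (2 : ℝ) ^ (kD D + 1) * 3 ^ (2 * kD D + 1) =
            (2 : ℝ) ^ (kD D + 1) * 3 ^ kD D * 3 ^ (kD D + 1) := by ring
        _ ≤ (cD D 0 : ℝ) * 3 ^ (kD D + 1) := mul_le_mul_of_nonneg_right h2 (by positivity)

end Pool.Agent.Results.MP_8b7eba_nt.PrimeTwistsOfEveryTwist
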