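import Mathlib
import Pool.Agent.V8H26.PT.Joint

/-!
# The same prime twists of several curves `x³ + y³ = D`: joint law, simultaneous non-vanishing

`E_N : y² + N y = x³` over `ℚ` is `3`-isogenous to `C_N : y² = x³ - 432 N²`, that is `x³ + y³ = N`. Let
`D_0, …, D_s` be ANY cube-free numbers prime to `3`, all with no prime factor `2` modulo `3` or all with
exactly one. The primes `ℓ`, admissible for all of them (`ℓ ∤ 3 D_j`, `D_j ℓ` has exactly one prime factor `2`
modulo `3` and is not `±1` modulo `9`), for which the Selmer groups of `√-3` on the twists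
`E_{D_0 ℓ}, …, E_{D_s ℓ}` by THE SAME prime `ℓ` have given orders `3 ^ (2 r_0 + 1), …, 3 ^ (2 r_s + 1)`,
have a natural density in the set of all primes, a rational number `m / (2 · 3^n)`.

For any TWO such numbers `D`, `D'` the primes `ℓ`, admissible for both, with `L(C_{D ℓ}, 1) ≠ 0` and
`L(C_{D' ℓ}, 1) ≠ 0`, with both `C_{D ℓ}(ℚ)`, `C_{D' ℓ}(ℚ)` finite (the weak conjecture for both) and with
`Ш(E_{D ℓ}/ℚ)[3^∞] = Ш(E_{D' ℓ}/ℚ)[3^∞] = 0`, have a positive density.
-/

set_option autoImplicit false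

open scoped Classical

namespace Pool.Agent.Results.MP_8b7eba_nt.SimultaneousPrimeTwists

open Pool.Agent.V8H26.PT.Tr

open Q283.Q3B Q283.Q3N Q283.TQ Pool.Agent.V8H26.PT in
theorem result (K : Type) [Field K] [NumberField K] [IsCyclotomicExtension {3} ℚ K] :
    (∀ (i s : ℕ) (D r : Fin (s + 1) → ℕ), i ≤ 1 → (∀ j, Base i (D j)) → ∃ m n : ℕ,
      HasDensity (fun l => ∀ j, Admissible (D j) l ∧ (Sel K (D j * l)).ncard = 3 ^ (2 * r j + 1))
        ((m : ℝ) / (2 * 3 ^ n))) ∧
    (∀ i D D' : ℕ, i ≤ 1 → Base i D → Base i D' → ∃ δ : ℝ, 0 < δ ∧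
      HasDensity (fun l => (Admissible D l ∧ Good (D * l) ∧ WeakHolds (D * l)) ∧
        (Admissible D' l ∧ Good (D' * l) ∧ WeakHolds (D' * l))) δ) := by
  obtain ⟨⟨j, -⟩, -⟩ := Pool.Agent.Y455.CTK.jex K
  refine ⟨?_, ?_⟩
  · intro i s D r hi hD
    have tr : ∀ l : ℕ, (∀ t, Admissible (D t) l ∧ Module.finrank (ZMod 3)
        (Q283.Q3.KT (D t * l).primeFactors (Q283.Q3N.fe (D t * l))) = r t + 1) ↔
        (∀ t, Admissible (D t) l ∧ (Sel K (D t * l)).ncard = 3 ^ (2 * r t + 1)) := fun l =>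
      forall_congr' fun t => and_congr_right fun h => (sel_iff K j hi (hD t) h (r t)).symm
    rcases Nat.le_one_iff_eq_zero_or_eq_one.1 hi with rfl | rfl
    · obtain ⟨m, n, h⟩ := joint2 D (fun t => base_zero.1 (hD t)) r
      refine ⟨m, n, hasDensity_congr (fun l _ => ?_) h⟩
      rw [← tr l]
      exact forall_congr' fun t => by rw [adm_zero (hD t)]
    · obtain ⟨m, n, h⟩ := joint1 D (fun t => base_one.1 (hD t)) r
      refine ⟨m, n, hasDensity_congr (fun l _ => ?_) h⟩
      rw [← tr l]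
      exact forall_congr' fun t => by rw [adm_one (hD t)]
  · intro i D D' hi hD hD'
    have tr : ∀ l : ℕ, ((Admissible D l ∧ Module.finrank (ZMod 3)
        (Q283.Q3.KT (D * l).primeFactors (Q283.Q3N.fe (D * l))) = 1) ∧ (Admissible D' l ∧
        Module.finrank (ZMod 3) (Q283.Q3.KT (D' * l).primeFactors (Q283.Q3N.fe (D' * l))) = 1)) ↔
        ((Admissible D l ∧ Good (D * l) ∧ WeakHolds (D * l)) ∧
        (Admissible D' l ∧ Good (D' * l) ∧ WeakHolds (D' * l))) := fun l =>
      and_congr (and_congr_right fun h => (good_rk K j hi hD h).symm)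
        (and_congr_right fun h => (good_rk K j hi hD' h).symm)
    rcases Nat.le_one_iff_eq_zero_or_eq_one.1 hi with rfl | rfl
    · obtain ⟨δ, h1, h2⟩ := pair2 (base_zero.1 hD) (base_zero.1 hD')
      refine ⟨δ, h1, hasDensity_congr (fun l _ => ?_) h2⟩
      rw [← tr l, adm_zero hD, adm_zero hD']
    · obtain ⟨δ, h1, h2⟩ := pair (base_one.1 hD) (base_one.1 hD')
      refine ⟨δ, h1, hasDensity_congr (fun l _ => ?_) h2⟩
      rw [← tr l, adm_one hD, adm_one hD']

end Pool.Agent.Results.MP_8b7eba_nt.SimultaneousPrimeTwists
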